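import Pool.Agent.H95.Stk.Final

/-!
# Strong `(i, j)`-scribability of stacked polytopes

For all `i ≤ j ≤ d - 3` there is a stacked `d`-polytope without `(i, j)`-scribed realization.  As
every stacked `d`-polytope is known to be `(d-2)`- and `(d-1)`-scribable, this answers question Q1
of MP_55faa6_co for all triples `(d, i, j)`: every stacked `d`-polytope is `(i, j)`-scribable if
and only if `j ≥ d - 2`.

Idea: in an `(i, j)`-scribed realization with `j ≤ d - 3` the facet normals of the stacked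
simplices have well defined angles.  Let a vertex `a` be stacked on a facet `F` with normal `n`,
let `m x` be the normals of the new facets `(F \ x) ∪ a`.  As `F \ {x, y}` cuts the ball,
`∠(m x, m y) ≤ ∠(m x, n) + ∠(n, m y)`.  With `T(F) = ∑_x ∠(n, h (F \ x))`, where `h G` supports the
whole polytope at the ridge `G`, one gets `∑_x T((F \ x) ∪ a) ≤ (d - 1) T(F)`, and `T(F) ≥ π / 2`
as the `i`-faces at `a` avoid the ball.  So `T` grows like `(d / (d - 1))^depth`, but `T ≤ d π`.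
-/

namespace Pool.Agent.Results.MP_55faa6_co.DeeplyStacked

/-- `ℝ^{d+1}` with the coordinates `x 0, ..., x d`. -/
abbrev Amb (d : ℕ) : Type := Fin (d + 1) → ℝ

/-- The solid light cone: `-(x 0)^2 + (x 1)^2 + ... + (x d)^2 ≤ 0` and `x 0 ≥ 0`. -/
def solidCone (d : ℕ) : Set (Amb d) :=
  {x | -(x 0 ^ 2) + ∑ i : Fin d, x i.succ ^ 2 ≤ 0 ∧ 0 ≤ x 0}

/-- The cone generated by a finite set of vectors. -/
def cone {d : ℕ} (V : Finset (Amb d)) : Set (Amb d) :=
  {x | ∃ c : Amb d → ℝ, (∀ v ∈ V, 0 ≤ c v) ∧ x = ∑ v ∈ V, c v • v}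

/-- `K` is a `(d + 1)`-dimensional pointed polyhedral cone, i.e. (the cone over) a `d`-polytope. -/
def IsPolytope (d : ℕ) (K : Set (Amb d)) : Prop :=
  (∃ V : Finset (Amb d), K = cone V) ∧
  (∀ x, x ∈ K → -x ∈ K → x = 0) ∧
  Submodule.span ℝ K = ⊤

/-- `F` is a face of `K`: the set where a linear functional that is nonnegative on `K` vanishes. -/
def IsFace {d : ℕ} (K F : Set (Amb d)) : Prop :=
  ∃ l : Amb d →ₗ[ℝ] ℝ, (∀ x ∈ K, 0 ≤ l x) ∧ F = {x | x ∈ K ∧ l x = 0}

/-- The linear dimension; a `k`-face of the polytope is a face of the cone of dimension `k + 1`. -/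
noncomputable def linDim {d : ℕ} (F : Set (Amb d)) : ℕ :=
  Module.finrank ℝ (Submodule.span ℝ F)

/-- Same combinatorial type: the face lattices, ordered by inclusion, are isomorphic. -/
def SameType {d : ℕ} (K K' : Set (Amb d)) : Prop :=
  Nonempty ({F : Set (Amb d) // IsFace K F} ≃o {F : Set (Amb d) // IsFace K' F})

/-- The facets, i.e. the `(d-1)`-faces of the polytope. -/
def IsFacet {d : ℕ} (K F : Set (Amb d)) : Prop := IsFace K F ∧ linDim F = d

/-- A `d`-simplex. -/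
def IsSimplex (d : ℕ) (K : Set (Amb d)) : Prop :=
  ∃ s : Finset (Amb d), s.card = d + 1 ∧ Submodule.span ℝ (s : Set (Amb d)) = ⊤ ∧ K = cone s

/-- One stacking step: add a new vertex `w` that lies beyond one facet `F` of `K` and beneath all
other facets. -/
def StackStep {d : ℕ} (K K' : Set (Amb d)) : Prop :=
  ∃ (F : Set (Amb d)) (w : Amb d), IsFacet K F ∧
    (∃ l : Amb d →ₗ[ℝ] ℝ, (∀ x ∈ K, 0 ≤ l x) ∧ F = {x | x ∈ K ∧ l x = 0} ∧ l w < 0) ∧
    (∀ F', IsFacet K F' → F' ≠ F →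
      ∃ l : Amb d →ₗ[ℝ] ℝ, (∀ x ∈ K, 0 ≤ l x) ∧ F' = {x | x ∈ K ∧ l x = 0} ∧ 0 < l w) ∧
    K' = {x | ∃ y ∈ K, ∃ c : ℝ, 0 ≤ c ∧ x = y + c • w}

/-- The stacked `d`-polytopes: obtained from a `d`-simplex by finitely many stacking steps. -/
def IsStacked (d : ℕ) (K : Set (Amb d)) : Prop :=
  ∃ K₀ : Set (Amb d), IsSimplex d K₀ ∧ Relation.ReflTransGen StackStep K₀ K

/-- `F` strongly cuts the sphere: its relative interior contains a nonzero vector of the solid
light cone. -/
def StronglyCuts {d : ℕ} (F : Set (Amb d)) : Prop :=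
  ∃ x ∈ intrinsicInterior ℝ F, x ∈ solidCone d ∧ x ≠ 0

/-- `F` strongly avoids the sphere: some supporting hyperplane of `K` cuts out `F` and has the
solid light cone on the same closed side as `K`. -/
def StronglyAvoids {d : ℕ} (K F : Set (Amb d)) : Prop :=
  ∃ l : Amb d →ₗ[ℝ] ℝ, l ≠ 0 ∧ (∀ x ∈ K, 0 ≤ l x) ∧ F = {x | x ∈ K ∧ l x = 0} ∧
    ∀ x ∈ solidCone d, 0 ≤ l x

/-- The realization `K` is `(i, j)`-scribed. -/
def Scribed {d : ℕ} (i j : ℕ) (K : Set (Amb d)) : Prop :=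
  (∀ F, IsFace K F → linDim F = i + 1 → StronglyAvoids K F) ∧
    (∀ F, IsFace K F → linDim F = j + 1 → StronglyCuts F)

/-- The combinatorial type of `K` is `(i, j)`-scribable. -/
def Scribable (d i j : ℕ) (K : Set (Amb d)) : Prop :=
  ∃ K' : Set (Amb d), IsPolytope d K' ∧ SameType K K' ∧ Scribed i j K'

/-- For all `i ≤ j ≤ d - 3` some stacked `d`-polytope is not `(i, j)`-scribable. -/
theorem result : ∀ d i j : ℕ, i ≤ j → j + 3 ≤ d →
    ∃ K : Set (Amb d), IsPolytope d K ∧ IsStacked d K ∧ ¬ Scribable d i j K := by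
  intro d i j hij hj
  obtain ⟨K, h1, h2, h3⟩ := Pool.Agent.H95.Stk.main (d := d) hij hj
  refine ⟨K, h2, h1, ?_⟩
  rintro ⟨K', a, b, c⟩
  exact h3 K' a b c

end Pool.Agent.Results.MP_55faa6_co.DeeplyStacked
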